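import Mathlib

/-!
# The product of two bo-bounded balleans is bo-bounded

Full (positive) answer to Q1 of MP_34945e_gt, in ZFC, with no hypothesis on cardinal invariants.
-/

set_option autoImplicit false

namespace Pool.Agent.Results.MP_34945e_gt.ProductBoBounded

universe u v

/-- Composition `E ∘ F = {(x,z) : ∃ y, (x,y) ∈ E and (y,z) ∈ F}`. -/
def relComp {X : Type u} (E F : Set (X × X)) : Set (X × X) :=
  {p | ∃ y, (p.1, y) ∈ E ∧ (y, p.2) ∈ F}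

/-- Inverse `F⁻¹ = {(y,x) : (x,y) ∈ F}`. -/
def relInv {X : Type u} (F : Set (X × X)) : Set (X × X) :=
  {p | (p.2, p.1) ∈ F}

/-- A ballean: a set `X` with a family of entourages. -/
structure Ballean (X : Type u) where
  /-- the family of entourages -/
  entourages : Set (Set (X × X))
  /-- every entourage contains the diagonal -/
  diag_subset : ∀ E ∈ entourages, ∀ x : X, (x, x) ∈ E
  /-- for all `E`, `F` some `D` satisfies `E ∘ F⁻¹ ⊆ D` -/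
  comp_inv : ∀ E ∈ entourages, ∀ F ∈ entourages, ∃ D ∈ entourages, relComp E (relInv F) ⊆ D
  /-- the entourages cover `X × X` -/
  sUnion_eq : ⋃₀ entourages = Set.univ

/-- The ball `E[x] = {y : (x,y) ∈ E}`. -/
def ball {X : Type u} (E : Set (X × X)) (x : X) : Set X := {y | (x, y) ∈ E}

namespace Ballean

variable {X : Type u} {Y : Type v}

/-- `A` is bounded if `A ⊆ E[x]` for some entourage `E` and some point `x`. -/
def IsBdd (𝒳 : Ballean X) (A : Set X) : Prop :=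
  ∃ E ∈ 𝒳.entourages, ∃ x : X, A ⊆ ball E x

/-- `f` is boundedly oscillating: there is `C > 0` such that for every entourage `E` there is a
bounded set `B` with `diam f(E[x]) < C` for all `x ∉ B`. -/
def BoundedlyOscillating (𝒳 : Ballean X) (f : X → ℝ) : Prop :=
  ∃ C : ℝ, 0 < C ∧ ∀ E ∈ 𝒳.entourages, ∃ B : Set X, 𝒳.IsBdd B ∧
    ∀ x, x ∉ B → Metric.ediam (f '' ball E x) < ENNReal.ofReal C

/-- `𝒳` is bo-bounded: each boundedly oscillating function is bounded outside a bounded set. -/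
def BoBounded (𝒳 : Ballean X) : Prop :=
  ∀ f : X → ℝ, 𝒳.BoundedlyOscillating f →
    ∃ B : Set X, 𝒳.IsBdd B ∧ ∃ M : ℝ, ∀ x, x ∉ B → |f x| ≤ M

/-- The entourage `E × F = {((x,y),(x',y')) : (x,x') ∈ E, (y,y') ∈ F}`. -/
def prodEnt (E : Set (X × X)) (F : Set (Y × Y)) : Set ((X × Y) × (X × Y)) :=
  {p | (p.1.1, p.2.1) ∈ E ∧ (p.1.2, p.2.2) ∈ F}

/-- The product ballean on `X × Y`, with the entourages `E × F`. -/
def prod (𝒳 : Ballean X) (𝒴 : Ballean Y) : Ballean (X × Y) where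
  entourages := {G | ∃ E ∈ 𝒳.entourages, ∃ F ∈ 𝒴.entourages, G = prodEnt E F}
  diag_subset := by
    rintro G ⟨E, hE, F, hF, rfl⟩ x
    exact ⟨𝒳.diag_subset E hE x.1, 𝒴.diag_subset F hF x.2⟩
  comp_inv := by
    rintro G ⟨E, hE, F, hF, rfl⟩ G' ⟨E', hE', F', hF', rfl⟩
    obtain ⟨D, hD, hD'⟩ := 𝒳.comp_inv E hE E' hE'
    obtain ⟨D₂, hD₂, hD₂'⟩ := 𝒴.comp_inv F hF F' hF'
    refine ⟨prodEnt D D₂, ⟨D, hD, D₂, hD₂, rfl⟩, ?_⟩
    rintro ⟨a, c⟩ ⟨b, hab, hbc⟩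
    exact ⟨hD' ⟨b.1, hab.1, hbc.1⟩, hD₂' ⟨b.2, hab.2, hbc.2⟩⟩
  sUnion_eq := by
    refine Set.eq_univ_of_forall ?_
    rintro ⟨a, b⟩
    have h1 : (a.1, b.1) ∈ ⋃₀ 𝒳.entourages := by rw [𝒳.sUnion_eq]; trivial
    have h2 : (a.2, b.2) ∈ ⋃₀ 𝒴.entourages := by rw [𝒴.sUnion_eq]; trivial
    obtain ⟨E, hE, h1⟩ := h1
    obtain ⟨F, hF, h2⟩ := h2
    exact ⟨prodEnt E F, ⟨E, hE, F, hF, rfl⟩, ⟨h1, h2⟩⟩

end Ballean

/-! ## Basic facts -/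

section basic

open Ballean

variable {X : Type u} {Y : Type v}

lemma exists_mem_entourage (𝒳 : Ballean X) (x y : X) :
    ∃ E ∈ 𝒳.entourages, (x, y) ∈ E := by
  have h : (x, y) ∈ ⋃₀ 𝒳.entourages := by rw [𝒳.sUnion_eq]; trivial
  obtain ⟨E, hE, h⟩ := h
  exact ⟨E, hE, h⟩

/-- an entourage containing `F⁻¹` -/
lemma exists_inv (𝒳 : Ballean X) {F : Set (X × X)} (hF : F ∈ 𝒳.entourages) :
    ∃ D ∈ 𝒳.entourages, ∀ x y, (x, y) ∈ F → (y, x) ∈ D := by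
  obtain ⟨D, hD, h⟩ := 𝒳.comp_inv F hF F hF
  exact ⟨D, hD, fun x y hxy => h ⟨y, 𝒳.diag_subset F hF y, hxy⟩⟩

/-- an entourage containing `E ∘ F` -/
lemma exists_comp (𝒳 : Ballean X) {E F : Set (X × X)} (hE : E ∈ 𝒳.entourages)
    (hF : F ∈ 𝒳.entourages) :
    ∃ D ∈ 𝒳.entourages, ∀ x y z, (x, y) ∈ E → (y, z) ∈ F → (x, z) ∈ D := by
  obtain ⟨F', hF', h'⟩ := exists_inv 𝒳 hF
  obtain ⟨D, hD, h⟩ := 𝒳.comp_inv E hE F' hF'
  exact ⟨D, hD, fun x y z hxy hyz => h ⟨y, hxy, h' y z hyz⟩⟩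

lemma isBdd_mono (𝒳 : Ballean X) {A B : Set X} (hB : 𝒳.IsBdd B) (h : A ⊆ B) : 𝒳.IsBdd A := by
  obtain ⟨E, hE, x, hx⟩ := hB
  exact ⟨E, hE, x, h.trans hx⟩

/-- a bounded set lies in a ball around any prescribed point -/
lemma isBdd_center (𝒳 : Ballean X) {A : Set X} (hA : 𝒳.IsBdd A) (x₀ : X) :
    ∃ E ∈ 𝒳.entourages, A ⊆ ball E x₀ := by
  obtain ⟨E, hE, x, hx⟩ := hA
  obtain ⟨G, hG, hG'⟩ := exists_mem_entourage 𝒳 x₀ x
  obtain ⟨D, hD, h⟩ := exists_comp 𝒳 hG hE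
  exact ⟨D, hD, fun y hy => h x₀ x y hG' (hx hy)⟩

lemma isBdd_union (𝒳 : Ballean X) {A B : Set X} (hA : 𝒳.IsBdd A) (hB : 𝒳.IsBdd B) :
    𝒳.IsBdd (A ∪ B) := by
  obtain ⟨E, hE, x, hx⟩ := hA
  obtain ⟨F, hF, hF'⟩ := isBdd_center 𝒳 hB x
  obtain ⟨D, hD, h⟩ := exists_comp 𝒳 hE hF
  refine ⟨D, hD, x, ?_⟩
  rintro y (hy | hy)
  · exact h x y y (hx hy) (𝒳.diag_subset F hF y)
  · exact h x x y (𝒳.diag_subset E hE x) (hF' hy)

lemma isBdd_empty_of_exists (𝒳 : Ballean X) {A : Set X} (hA : 𝒳.IsBdd A) :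
    𝒳.IsBdd (∅ : Set X) := isBdd_mono 𝒳 hA (Set.empty_subset _)

/-- A pointwise criterion for bounded oscillation. -/
lemma boundedlyOscillating_of (𝒳 : Ballean X) (f : X → ℝ) (C : ℝ)
    (h : ∀ E ∈ 𝒳.entourages, ∃ B : Set X, 𝒳.IsBdd B ∧
      ∀ x, x ∉ B → ∀ x', (x, x') ∈ E → |f x - f x'| ≤ C) :
    𝒳.BoundedlyOscillating f := by
  refine ⟨2 * |C| + 1, by positivity, fun E hE => ?_⟩
  obtain ⟨B, hB, hB'⟩ := h E hE
  refine ⟨B, hB, fun x hx => ?_⟩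
  have h1 : Metric.ediam (f '' ball E x) ≤ ENNReal.ofReal (2 * |C|) := by
    refine Metric.ediam_le ?_
    rintro _ ⟨a, ha, rfl⟩ _ ⟨b, hb, rfl⟩
    rw [edist_dist, Real.dist_eq]
    refine ENNReal.ofReal_le_ofReal ?_
    have h2 := hB' x hx a ha
    have h3 := hB' x hx b hb
    have h4 : C ≤ |C| := le_abs_self C
    have h5 : |f a - f b| ≤ |f x - f a| + |f x - f b| := by
      have : f a - f b = (f x - f b) - (f x - f a) := by ring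
      rw [this]
      exact (abs_sub _ _).trans (by rw [add_comm])
    linarith
  refine lt_of_le_of_lt h1 ?_
  exact (ENNReal.ofReal_lt_ofReal_iff (by positivity)).2 (by linarith)

/-- consequence of bounded oscillation for pairs of points -/
lemma osc_pair (f : X → ℝ) (C : ℝ) (hC : 0 < C) {E : Set (X × X)} {x : X}
    (h : Metric.ediam (f '' ball E x) < ENNReal.ofReal C) {a b : X} (ha : (x, a) ∈ E)
    (hb : (x, b) ∈ E) : |f a - f b| ≤ C := by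
  have h1 : edist (f a) (f b) ≤ Metric.ediam (f '' ball E x) :=
    Metric.edist_le_ediam_of_mem ⟨a, ha, rfl⟩ ⟨b, hb, rfl⟩
  have h2 := lt_of_le_of_lt h1 h
  rw [edist_dist, Real.dist_eq] at h2
  exact ((ENNReal.ofReal_lt_ofReal_iff hC).1 h2).le

end basic

/-! ## The combinatorial core: two sigma-complete ultrafilters -/

section comb

variable {I : Type u} {J : Type v}

lemma comb_aux (U : Ultrafilter I) (W : Ultrafilter J)
    (hW : ∀ S : ℕ → Set J, (∀ n, S n ∈ W) → (⋂ n, S n) ∈ W)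
    (P₁ : Set I) (P₂ : Set J) (g : I → J → ℝ) (c : ℝ)
    (ha : ∀ A : Set I, A ⊆ P₁ → A ∉ U → {j | j ∈ P₂ ∧ ∃ i ∈ A, c < g i j} ∉ W)
    (hb : ∀ D : Set J, D ⊆ P₂ → D ∉ W → {i | i ∈ P₁ ∧ ∃ j ∈ D, c < g i j} ∉ U)
    (p q : I → J) (S : Set I) (hS : S ∈ U) (hSP : S ⊆ P₁)
    (hp : ∀ i ∈ S, p i ∈ P₂ ∧ c < g i (p i)) (hq : ∀ i ∈ S, q i ∈ P₂ ∧ c < g i (q i))
    (r : J → J → Prop) (hr : WellFounded r) (hlt : ∀ i ∈ S, r (p i) (q i)) : False := by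
  obtain ⟨i₀, hi₀⟩ := U.nonempty_of_mem hS
  have : Nonempty I := ⟨i₀⟩
  -- the set of values of `q` is large
  have hZ0 : q '' S ∈ W := by
    by_contra h
    have h1 := hb (q '' S) (by rintro _ ⟨i, hi, rfl⟩; exact (hq i hi).1) h
    exact h1 (Filter.mem_of_superset hS fun i hi => ⟨hSP hi, q i, ⟨i, hi, rfl⟩, (hq i hi).2⟩)
  let s : J → I := Function.invFunOn q S
  have hs : ∀ j ∈ q '' S, s j ∈ S ∧ q (s j) = j := fun j hj =>
    ⟨Function.invFunOn_mem hj, Function.invFunOn_eq hj⟩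
  have step : ∀ Z : Set J, Z ∈ W → {j | j ∈ q '' S ∧ p (s j) ∈ Z} ∈ W := by
    intro Z hZ
    by_contra h
    have hA : {i | i ∈ S ∧ p i ∉ Z} ∉ U := by
      have h1 : P₂ \ Z ∉ W := by
        intro h2
        have h3 : (P₂ \ Z) ∩ Z ∈ W := Filter.inter_mem h2 hZ
        have h4 : (P₂ \ Z) ∩ Z = ∅ := by ext j; simp
        rw [h4] at h3
        exact W.empty_notMem h3
      have h5 := hb (P₂ \ Z) Set.sdiff_subset h1
      intro h6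
      exact h5 (Filter.mem_of_superset h6 fun i hi =>
        ⟨hSP hi.1, p i, ⟨(hp i hi.1).1, hi.2⟩, (hp i hi.1).2⟩)
    have h7 := ha _ (fun i hi => hSP hi.1) hA
    have h8 : {j | j ∈ q '' S ∧ p (s j) ∈ Z}ᶜ ∈ W := Ultrafilter.compl_mem_iff_notMem.2 h
    refine h7 (Filter.mem_of_superset (Filter.inter_mem hZ0 h8) ?_)
    rintro j ⟨hj1, hj2⟩
    obtain ⟨h9, h10⟩ := hs j hj1
    refine ⟨?_, s j, ⟨h9, fun h11 => hj2 ⟨hj1, h11⟩⟩, ?_⟩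
    · have := (hq _ h9).1; rwa [h10] at this
    · have := (hq _ h9).2; rwa [h10] at this
  let Z : ℕ → Set J := fun n => Nat.rec (q '' S) (fun _ Z => {j | j ∈ q '' S ∧ p (s j) ∈ Z}) n
  have hZ : ∀ n, Z n ∈ W := by
    intro n
    induction n with
    | zero => exact hZ0
    | succ n ih => exact step _ ih
  obtain ⟨j₀, hj₀⟩ := W.nonempty_of_mem (hW Z hZ)
  obtain ⟨m, hm, hmin⟩ := hr.has_min (⋂ n, Z n) ⟨j₀, hj₀⟩
  have hm' : ∀ n, m ∈ Z n := fun n => Set.mem_iInter.1 hm n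
  have hτ : p (s m) ∈ ⋂ n, Z n := Set.mem_iInter.2 fun n => (hm' (n + 1)).2
  refine hmin _ hτ ?_
  obtain ⟨h1, h2⟩ := hs m (hm' 0)
  have := hlt _ h1
  rwa [h2] at this

lemma comb (U : Ultrafilter I) (W : Ultrafilter J)
    (hU : ∀ S : ℕ → Set I, (∀ n, S n ∈ U) → (⋂ n, S n) ∈ U)
    (hW : ∀ S : ℕ → Set J, (∀ n, S n ∈ W) → (⋂ n, S n) ∈ W)
    (P₁ : Set I) (P₂ : Set J) (hP₁ : P₁ ∈ U) (g : I → J → ℝ) (c : ℝ)
    (ha : ∀ A : Set I, A ⊆ P₁ → A ∉ U → {j | j ∈ P₂ ∧ ∃ i ∈ A, c < g i j} ∉ W)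
    (hb : ∀ D : Set J, D ⊆ P₂ → D ∉ W → {i | i ∈ P₁ ∧ ∃ j ∈ D, c < g i j} ∉ U)
    (hc : {i | ∀ n : ℕ, ∃ j ∈ P₂, (n : ℝ) < g i j} ∈ U) : False := by
  have hJ : Nonempty J := by
    obtain ⟨i, hi⟩ := U.nonempty_of_mem hc
    obtain ⟨j, -, -⟩ := hi 0
    exact ⟨j⟩
  set G : Set I := P₁ ∩ {i | ∀ n : ℕ, ∃ j ∈ P₂, (n : ℝ) < g i j} with hG
  have hGU : G ∈ U := Filter.inter_mem hP₁ hc
  have key : ∀ (n : ℕ) (i : I), i ∈ G → ∃ j ∈ P₂, (n : ℝ) + |c| < g i j := by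
    intro n i hi
    obtain ⟨m, hm⟩ := exists_nat_ge ((n : ℝ) + |c|)
    obtain ⟨j, hj, hj'⟩ := hi.2 m
    exact ⟨j, hj, lt_of_le_of_lt hm hj'⟩
  choose! π hπ1 hπ2 using key
  have hπc : ∀ (n : ℕ) (i : I), i ∈ G → c < g i (π n i) := by
    intro n i hi
    have h1 := hπ2 n i hi
    have h2 : c ≤ |c| := le_abs_self c
    have h3 : (0 : ℝ) ≤ n := Nat.cast_nonneg n
    linarith
  have hne : ∃ n : ℕ, {i | i ∈ G ∧ π n i ≠ π 0 i} ∈ U := by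
    by_contra hcon
    push Not at hcon
    have h1 : ∀ n : ℕ, G ∩ {i | i ∈ G ∧ π n i ≠ π 0 i}ᶜ ∈ U := fun n =>
      Filter.inter_mem hGU (Ultrafilter.compl_mem_iff_notMem.2 (hcon n))
    obtain ⟨i, hi⟩ := U.nonempty_of_mem (hU _ h1)
    have h2 : ∀ n, i ∈ G ∧ π n i = π 0 i := by
      intro n
      obtain ⟨h3, h4⟩ := Set.mem_iInter.1 hi n
      refine ⟨h3, ?_⟩
      by_contra h5
      exact h4 ⟨h3, h5⟩
    obtain ⟨m, hm⟩ := exists_nat_ge (g i (π 0 i))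
    have h6 := hπ2 m i (h2 m).1
    rw [(h2 m).2] at h6
    have h7 : 0 ≤ |c| := abs_nonneg c
    linarith
  obtain ⟨n, hn⟩ := hne
  let r : J → J → Prop := WellOrderingRel
  have hr : WellFounded r := IsWellFounded.wf
  have hsub : {i | i ∈ G ∧ π n i ≠ π 0 i} ⊆
      {i | i ∈ G ∧ r (π n i) (π 0 i)} ∪ {i | i ∈ G ∧ r (π 0 i) (π n i)} := by
    rintro i ⟨hi, hi'⟩
    rcases trichotomous_of r (π n i) (π 0 i) with h | h | h
    · exact Or.inl ⟨hi, h⟩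
    · exact absurd h hi'
    · exact Or.inr ⟨hi, h⟩
  rcases Ultrafilter.union_mem_iff.1 (Filter.mem_of_superset hn hsub) with h | h
  · exact comb_aux U W hW P₁ P₂ g c ha hb (π n) (π 0) _ h (fun i hi => hi.1.1)
      (fun i hi => ⟨hπ1 n i hi.1, hπc n i hi.1⟩) (fun i hi => ⟨hπ1 0 i hi.1, hπc 0 i hi.1⟩)
      r hr (fun i hi => hi.2)
  · exact comb_aux U W hW P₁ P₂ g c ha hb (π 0) (π n) _ h (fun i hi => hi.1.1)
      (fun i hi => ⟨hπ1 0 i hi.1, hπc 0 i hi.1⟩) (fun i hi => ⟨hπ1 n i hi.1, hπc n i hi.1⟩)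
      r hr (fun i hi => hi.2)

end comb

/-! ## Functions on one factor -/

section factor

open Ballean

variable {X : Type u} {Y : Type v}

/-- Two points of `X` are equivalent if the sections of `f` at them have finite sup-distance. -/
def distSetoid (f : X → Y → ℝ) : Setoid X where
  r x x' := ∃ N : ℝ, ∀ y, |f x y - f x' y| ≤ N
  iseqv := by
    refine ⟨fun x => ⟨0, fun y => by simp⟩, ?_, ?_⟩
    · rintro x x' ⟨N, hN⟩
      exact ⟨N, fun y => by rw [abs_sub_comm]; exact hN y⟩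
    · rintro x x' x'' ⟨N, hN⟩ ⟨N', hN'⟩
      refine ⟨N + N', fun y => ?_⟩
      have := abs_sub_le (f x y) (f x' y) (f x'' y)
      linarith [hN y, hN' y]

/-- `f` oscillates by at most `C` along each entourage of `X`, outside a bounded set. -/
def Osc (𝒳 : Ballean X) (f : X → Y → ℝ) (C : ℝ) : Prop :=
  ∀ E ∈ 𝒳.entourages, ∃ B : Set X, 𝒳.IsBdd B ∧
    ∀ x, x ∉ B → ∀ x', (x, x') ∈ E → ∀ y, |f x y - f x' y| ≤ C

variable {𝒳 : Ballean X} {f : X → Y → ℝ} {C : ℝ}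

lemma bounded_of_lip (h𝒳 : 𝒳.BoBounded) (H : Osc 𝒳 f C) (r : X → ℝ) (C' : ℝ)
    (hr : ∀ x x', (∀ y, |f x y - f x' y| ≤ C) → |r x - r x'| ≤ C') :
    ∃ B : Set X, 𝒳.IsBdd B ∧ ∃ M : ℝ, ∀ x, x ∉ B → |r x| ≤ M := by
  refine h𝒳 r (boundedlyOscillating_of 𝒳 r C' fun E hE => ?_)
  obtain ⟨B, hB, hB'⟩ := H E hE
  exact ⟨B, hB, fun x hx x' hxx' => hr x x' (hB' x hx x' hxx')⟩

lemma uniform_dist (h𝒳 : 𝒳.BoBounded) (H : Osc 𝒳 f C) :
    ∃ B : Set X, 𝒳.IsBdd B ∧ ∃ N : ℝ, 0 ≤ N ∧ ∀ x x', x ∉ B → x' ∉ B →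
      (distSetoid f).r x x' → ∀ y, |f x y - f x' y| ≤ N := by
  let rep : X → X := fun x => (Quotient.mk (distSetoid f) x).out
  have hrep : ∀ x, (distSetoid f).r (rep x) x := fun x => Quotient.mk_out (s := distSetoid f) x
  have hrep' : ∀ x x', (distSetoid f).r x x' → rep x = rep x' := by
    intro x x' h
    have : Quotient.mk (distSetoid f) x = Quotient.mk (distSetoid f) x' := Quotient.sound h
    simp only [rep, this]
  let ρ : X → ℝ := fun x => ⨆ y, |f x y - f (rep x) y|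
  have hbdd : ∀ x, BddAbove (Set.range fun y => |f x y - f (rep x) y|) := by
    intro x
    obtain ⟨N, hN⟩ := hrep x
    refine ⟨N, ?_⟩
    rintro _ ⟨y, rfl⟩
    change |f x y - f (rep x) y| ≤ N
    rw [abs_sub_comm]; exact hN y
  have hρ0 : ∀ x, 0 ≤ ρ x := fun x => Real.iSup_nonneg fun y => abs_nonneg _
  have hρ : ∀ x x', (∀ y, |f x y - f x' y| ≤ C) → ρ x ≤ ρ x' + |C| := by
    intro x x' h
    have hr : rep x = rep x' := hrep' x x' ⟨C, h⟩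
    refine Real.iSup_le (fun y => ?_) (by have := hρ0 x'; positivity)
    have h1 : |f x' y - f (rep x') y| ≤ ρ x' := le_ciSup (hbdd x') y
    have h2 := abs_sub_le (f x y) (f x' y) (f (rep x) y)
    rw [hr] at h2 ⊢
    have h3 := h y
    have h4 := le_abs_self C
    linarith
  obtain ⟨B, hB, M, hM⟩ := bounded_of_lip h𝒳 H ρ |C| (by
    intro x x' h
    have h1 := hρ x x' h
    have h2 := hρ x' x (fun y => by rw [abs_sub_comm]; exact h y)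
    rw [abs_sub_le_iff]
    constructor <;> linarith)
  refine ⟨B, hB, 2 * |M|, by positivity, fun x x' hx hx' hxx' y => ?_⟩
  have hr : rep x = rep x' := hrep' x x' hxx'
  have h1 : |f x y - f (rep x) y| ≤ ρ x := le_ciSup (hbdd x) y
  have h2 : |f x' y - f (rep x') y| ≤ ρ x' := le_ciSup (hbdd x') y
  have h3 := abs_sub_le (f x y) (f (rep x) y) (f x' y)
  have h4 : |f (rep x) y - f x' y| ≤ ρ x' := by rw [abs_sub_comm, hr]; exact h2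
  have h5 : ρ x ≤ |M| := (le_abs_self _).trans ((hM x hx).trans (le_abs_self M))
  have h6 : ρ x' ≤ |M| := (le_abs_self _).trans ((hM x' hx').trans (le_abs_self M))
  linarith

lemma sigma_complete (h𝒳 : 𝒳.BoBounded) (H : Osc 𝒳 f C) (p : Ultrafilter X)
    (hp : ∀ B, 𝒳.IsBdd B → B ∉ p) (S : ℕ → Set (Quotient (distSetoid f)))
    (hS : ∀ n, S n ∈ p.map (Quotient.mk (distSetoid f))) :
    (⋂ n, S n) ∈ p.map (Quotient.mk (distSetoid f)) := by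
  classical
  let π : X → Quotient (distSetoid f) := Quotient.mk (distSetoid f)
  let r : X → ℝ := fun x => if h : ∃ n, π x ∉ S n then (Nat.find h : ℝ) else 0
  obtain ⟨B, hB, M, hM⟩ := bounded_of_lip h𝒳 H r 0 (by
    intro x x' h
    have hx : π x = π x' := Quotient.sound (⟨C, h⟩ : (distSetoid f).r x x')
    have : r x = r x' := by simp only [r, hx]
    rw [this]; simp)
  obtain ⟨K, hK⟩ := exists_nat_ge M
  by_contra hcon
  have h1 : (π ⁻¹' (⋂ n, S n))ᶜ ∈ p := by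
    rw [Ultrafilter.compl_mem_iff_notMem]; exact hcon
  have h2 : Bᶜ ∈ p := Ultrafilter.compl_mem_iff_notMem.2 (hp B hB)
  have h3 : (⋂ n ∈ {n : ℕ | n ≤ K}, π ⁻¹' (S n)) ∈ p :=
    (Filter.biInter_mem (Set.finite_le_nat K)).2 fun n _ => hS n
  obtain ⟨x, ⟨hx1, hx2⟩, hx3⟩ := p.nonempty_of_mem (Filter.inter_mem (Filter.inter_mem h1 h2) h3)
  have h4 : ∃ n, π x ∉ S n := by
    by_contra h5
    push Not at h5
    exact hx1 (Set.mem_iInter.2 h5)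
  have h6 : r x = (Nat.find h4 : ℝ) := by simp only [r, dif_pos h4]
  have h7 : |r x| ≤ M := hM x hx2
  rw [h6, Nat.abs_cast] at h7
  have h8 : Nat.find h4 ≤ K := by exact_mod_cast h7.trans hK
  exact Nat.find_spec h4 (Set.mem_iInter₂.1 hx3 _ h8)

lemma exists_atom (h𝒳 : 𝒳.BoBounded) (H : Osc 𝒳 f C)
    (U : Ultrafilter (Quotient (distSetoid f))) :
    ∃ P ∈ U, ∀ A ⊆ P, A ∉ U → 𝒳.IsBdd (Quotient.mk (distSetoid f) ⁻¹' A) := by
  classical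
  let π : X → Quotient (distSetoid f) := Quotient.mk (distSetoid f)
  by_contra hcon
  push Not at hcon
  choose! a ha1 ha2 ha3 using hcon
  let P : ℕ → Set (Quotient (distSetoid f)) := fun n => Nat.rec Set.univ (fun _ P => P \ a P) n
  have hPs : ∀ n, P (n + 1) = P n \ a (P n) := fun n => rfl
  have hP : ∀ n, P n ∈ U := by
    intro n
    induction n with
    | zero => exact Filter.univ_mem
    | succ n ih =>
      rw [hPs, Set.sdiff_eq]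
      exact Filter.inter_mem ih (Ultrafilter.compl_mem_iff_notMem.2 (ha2 _ ih))
  have hanti : ∀ m n, m ≤ n → P n ⊆ P m := by
    intro m n h
    induction h with
    | refl => exact subset_rfl
    | step h ih => exact (Set.sdiff_subset).trans ih
  have hdisj : ∀ m n, m < n → ∀ i, i ∈ a (P m) → i ∈ a (P n) → False := by
    intro m n h i hi hi'
    have h1 : i ∈ P (m + 1) := hanti (m + 1) n h (ha1 _ (hP n) hi')
    exact h1.2 hi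
  let r : X → ℝ := fun x => if h : ∃ n, π x ∈ a (P n) then (Nat.find h : ℝ) else 0
  have hr : ∀ x n, π x ∈ a (P n) → r x = n := by
    intro x n hx
    have h1 : ∃ n, π x ∈ a (P n) := ⟨n, hx⟩
    have h2 : r x = (Nat.find h1 : ℝ) := by simp only [r, dif_pos h1]
    have h3 : Nat.find h1 ≤ n := Nat.find_le hx
    rcases h3.lt_or_eq with h4 | h4
    · exact (hdisj _ _ h4 _ (Nat.find_spec h1) hx).elim
    · rw [h2, h4]
  obtain ⟨B, hB, M, hM⟩ := bounded_of_lip h𝒳 H r 0 (by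
    intro x x' h
    have hx : π x = π x' := Quotient.sound (⟨C, h⟩ : (distSetoid f).r x x')
    have : r x = r x' := by simp only [r, hx]
    rw [this]; simp)
  obtain ⟨K, hK⟩ := exists_nat_gt M
  refine ha3 _ (hP K) (isBdd_mono 𝒳 hB ?_)
  intro x hx
  by_contra hxB
  have h1 := hM x hxB
  rw [hr x K hx, Nat.abs_cast] at h1
  linarith

end factor

/-! ## The product -/

section product

open Ballean

variable {X : Type u} {Y : Type v}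

/-- `f` oscillates by at most `C` along each product entourage, outside a product of bounded
sets. -/
def Osc2 (𝒳 : Ballean X) (𝒴 : Ballean Y) (f : X → Y → ℝ) (C : ℝ) : Prop :=
  ∀ E ∈ 𝒳.entourages, ∀ F ∈ 𝒴.entourages, ∃ B : Set X, ∃ D : Set Y, 𝒳.IsBdd B ∧ 𝒴.IsBdd D ∧
    ∀ x y, ¬ (x ∈ B ∧ y ∈ D) → ∀ x' y', (x, x') ∈ E → (y, y') ∈ F → |f x y - f x' y'| ≤ C

lemma Osc2.swap {𝒳 : Ballean X} {𝒴 : Ballean Y} {f : X → Y → ℝ} {C : ℝ}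
    (H : Osc2 𝒳 𝒴 f C) : Osc2 𝒴 𝒳 (fun y x => f x y) C := by
  intro F hF E hE
  obtain ⟨B, D, hB, hD, h⟩ := H E hE F hF
  exact ⟨D, B, hD, hB, fun y x hyx y' x' hy hx => h x y (fun h' => hyx ⟨h'.2, h'.1⟩) x' y' hx hy⟩

lemma Osc2.left {𝒳 : Ballean X} {𝒴 : Ballean Y} {f : X → Y → ℝ} {C : ℝ}
    (H : Osc2 𝒳 𝒴 f C) (y₀ : Y) : Osc 𝒳 f C := by
  intro E hE
  obtain ⟨F, hF, -⟩ := exists_mem_entourage 𝒴 y₀ y₀
  obtain ⟨B, D, hB, hD, h⟩ := H E hE F hF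
  exact ⟨B, hB, fun x hx x' hxx' y => h x y (fun h' => hx h'.1) x' y hxx' (𝒴.diag_subset F hF y)⟩

/-- Over a bounded set of `X`, the function is bounded by a fixed constant outside a bounded
subset of `Y`. -/
lemma bounded_over_bounded {𝒳 : Ballean X} {𝒴 : Ballean Y} {f : X → Y → ℝ} {C : ℝ}
    (h𝒴 : 𝒴.BoBounded) (H : Osc2 𝒳 𝒴 f C) (x₀ : X) (y₀ : Y) :
    ∃ c : ℝ, ∀ B, 𝒳.IsBdd B → ∃ D, 𝒴.IsBdd D ∧ ∀ x ∈ B, ∀ y, y ∉ D → |f x y| ≤ c := by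
  obtain ⟨E₀, hE₀, -⟩ := exists_mem_entourage 𝒳 x₀ x₀
  obtain ⟨F₀, hF₀, -⟩ := exists_mem_entourage 𝒴 y₀ y₀
  obtain ⟨D₀, hD₀, M, hM⟩ := h𝒴 (fun y => f x₀ y) (boundedlyOscillating_of 𝒴 _ C (by
    intro F hF
    obtain ⟨B, D, hB, hD, h⟩ := H E₀ hE₀ F hF
    exact ⟨D, hD, fun y hy y' hyy' =>
      h x₀ y (fun h' => hy h'.2) x₀ y' (𝒳.diag_subset E₀ hE₀ x₀) hyy'⟩))
  refine ⟨M + C, fun B hB => ?_⟩
  obtain ⟨E, hE, hBE⟩ := isBdd_center 𝒳 hB x₀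
  obtain ⟨B', D', hB', hD', h⟩ := H E hE F₀ hF₀
  refine ⟨D₀ ∪ D', isBdd_union 𝒴 hD₀ hD', fun x hx y hy => ?_⟩
  have h1 : |f x₀ y| ≤ M := hM y fun h' => hy (Or.inl h')
  have h2 : |f x₀ y - f x y| ≤ C :=
    h x₀ y (fun h' => hy (Or.inr h'.2)) x y (hBE hx) (𝒴.diag_subset F₀ hF₀ y)
  have h3 : |f x y| ≤ |f x₀ y| + |f x₀ y - f x y| := by
    have : f x y = f x₀ y - (f x₀ y - f x y) := by ring
    calc |f x y| = |f x₀ y - (f x₀ y - f x y)| := by rw [← this]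
      _ ≤ _ := abs_sub _ _
  linarith

/-- A selector of the classes, chosen outside a given set `B₀` whenever possible. -/
lemma exists_selector (f : X → Y → ℝ) (B₀ : Set X) :
    ∃ s : Quotient (distSetoid f) → X, (∀ i, Quotient.mk (distSetoid f) (s i) = i) ∧
      ∀ x, x ∉ B₀ → s (Quotient.mk (distSetoid f) x) ∉ B₀ := by
  classical
  let s : Quotient (distSetoid f) → X := fun i =>
    if h : ∃ x, x ∉ B₀ ∧ Quotient.mk (distSetoid f) x = i then h.choose else i.out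
  refine ⟨s, fun i => ?_, fun x hx => ?_⟩
  · by_cases h : ∃ x, x ∉ B₀ ∧ Quotient.mk (distSetoid f) x = i
    · have hs : s i = h.choose := by simp only [s, dif_pos h]
      rw [hs]; exact h.choose_spec.2
    · have hs : s i = i.out := by simp only [s, dif_neg h]
      rw [hs]; exact Quotient.out_eq i
  · have h : ∃ x', x' ∉ B₀ ∧ Quotient.mk (distSetoid f) x' = Quotient.mk (distSetoid f) x :=
      ⟨x, hx, rfl⟩
    have hs : s (Quotient.mk _ x) = h.choose := by simp only [s, dif_pos h]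
    rw [hs]
    exact h.choose_spec.1

/-- An ultrafilter on which the function is large and which avoids bounded rectangles projects
to an ultrafilter without bounded sets. -/
lemma unb_aux {Z : Type*} {𝒳 : Ballean X} {𝒴 : Ballean Y} {f : X → Y → ℝ} {c : ℝ}
    (hc : ∀ B, 𝒳.IsBdd B → ∃ D, 𝒴.IsBdd D ∧ ∀ x ∈ B, ∀ y, y ∉ D → |f x y| ≤ c)
    (𝓤 : Ultrafilter Z) (a : Z → X) (b : Z → Y)
    (hbig : ∀ (B : Set X) (D : Set Y) (M : ℝ), 𝒳.IsBdd B → 𝒴.IsBdd D →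
      {z | ¬ (a z ∈ B ∧ b z ∈ D) ∧ M < |f (a z) (b z)|} ∈ 𝓤) (B : Set X) (hB : 𝒳.IsBdd B) :
    a ⁻¹' B ∉ 𝓤 := by
  intro h
  obtain ⟨D, hD, hBD⟩ := hc B hB
  obtain ⟨z, hz1, hz2, hz3⟩ := 𝓤.nonempty_of_mem (Filter.inter_mem h (hbig B D c hB hD))
  have := hBD (a z) hz1 (b z) fun h' => hz2 ⟨hz1, h'⟩
  linarith

/-- The selector of the classes also leads to an ultrafilter without bounded sets. -/
lemma sel_aux {Z : Type*} {𝒳 : Ballean X} {𝒴 : Ballean Y} {f : X → Y → ℝ} {c N₀ : ℝ}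
    (hc : ∀ B, 𝒳.IsBdd B → ∃ D, 𝒴.IsBdd D ∧ ∀ x ∈ B, ∀ y, y ∉ D → |f x y| ≤ c)
    (𝓤 : Ultrafilter Z) (a : Z → X) (b : Z → Y)
    (hbig : ∀ M : ℝ, {z | M < |f (a z) (b z)|} ∈ 𝓤)
    (hb : ∀ D, 𝒴.IsBdd D → b ⁻¹' D ∉ 𝓤)
    (s : Quotient (distSetoid f) → X)
    (hs : {z | ∀ y, |f (a z) y - f (s (Quotient.mk _ (a z))) y| ≤ N₀} ∈ 𝓤)
    (B : Set X) (hB : 𝒳.IsBdd B) :
    {i | s i ∈ B} ∉ (𝓤.map a).map (Quotient.mk (distSetoid f)) := by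
  intro h
  have h' : {z | s (Quotient.mk _ (a z)) ∈ B} ∈ 𝓤 := h
  obtain ⟨D, hD, hBD⟩ := hc B hB
  have h2 : (b ⁻¹' D)ᶜ ∈ 𝓤 := Ultrafilter.compl_mem_iff_notMem.2 (hb D hD)
  obtain ⟨z, ⟨⟨hz1, hz2⟩, hz3⟩, hz4⟩ := 𝓤.nonempty_of_mem (Filter.inter_mem
    (Filter.inter_mem (Filter.inter_mem h' h2) hs) (hbig (N₀ + c)))
  have h3 := hBD _ hz1 (b z) hz2
  have h4 := hz3 (b z)
  have h5 : |f (a z) (b z)| ≤
      |f (a z) (b z) - f (s (Quotient.mk _ (a z))) (b z)| + |f (s (Quotient.mk _ (a z))) (b z)| := by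
    have := abs_add_le (f (a z) (b z) - f (s (Quotient.mk _ (a z))) (b z))
      (f (s (Quotient.mk _ (a z))) (b z))
    rwa [sub_add_cancel] at this
  have h6 : N₀ + c < |f (a z) (b z)| := hz4
  linarith

lemma main_aux {𝒳 : Ballean X} {𝒴 : Ballean Y} {f : X → Y → ℝ} {C : ℝ}
    (h𝒳 : 𝒳.BoBounded) (h𝒴 : 𝒴.BoBounded) (H : Osc2 𝒳 𝒴 f C) (x₀ : X) (y₀ : Y) :
    ∃ B D, 𝒳.IsBdd B ∧ 𝒴.IsBdd D ∧ ∃ M : ℝ, ∀ x y, ¬ (x ∈ B ∧ y ∈ D) → |f x y| ≤ M := by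
  by_contra hcon
  push Not at hcon
  -- the ultrafilter
  let ι := {B : Set X // 𝒳.IsBdd B} × {D : Set Y // 𝒴.IsBdd D} × ℝ
  let S : ι → Set (X × Y) := fun i =>
    {z | ¬ (z.1 ∈ i.1.1 ∧ z.2 ∈ i.2.1.1) ∧ i.2.2 < |f z.1 z.2|}
  have hBdd0 : 𝒳.IsBdd (∅ : Set X) := by
    obtain ⟨E₀, hE₀, -⟩ := exists_mem_entourage 𝒳 x₀ x₀
    exact ⟨E₀, hE₀, x₀, Set.empty_subset _⟩
  have hBdd0' : 𝒴.IsBdd (∅ : Set Y) := by
    obtain ⟨E₀, hE₀, -⟩ := exists_mem_entourage 𝒴 y₀ y₀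
    exact ⟨E₀, hE₀, y₀, Set.empty_subset _⟩
  have hιn : Nonempty ι := ⟨(⟨∅, hBdd0⟩, ⟨∅, hBdd0'⟩, 0)⟩
  have hdir : Directed (· ≥ ·) (fun i : ι => Filter.principal (S i)) := by
    rintro ⟨⟨B, hB⟩, ⟨D, hD⟩, M⟩ ⟨⟨B', hB'⟩, ⟨D', hD'⟩, M'⟩
    refine ⟨(⟨B ∪ B', isBdd_union 𝒳 hB hB'⟩, ⟨D ∪ D', isBdd_union 𝒴 hD hD'⟩, max M M'), ?_, ?_⟩
    · refine Filter.principal_mono.2 ?_
      rintro z ⟨hz1, hz2⟩
      exact ⟨fun h => hz1 ⟨Or.inl h.1, Or.inl h.2⟩, lt_of_le_of_lt (le_max_left _ _) hz2⟩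
    · refine Filter.principal_mono.2 ?_
      rintro z ⟨hz1, hz2⟩
      exact ⟨fun h => hz1 ⟨Or.inr h.1, Or.inr h.2⟩, lt_of_le_of_lt (le_max_right _ _) hz2⟩
  have hneb : (⨅ i : ι, Filter.principal (S i)).NeBot := by
    refine Filter.iInf_neBot_of_directed' hdir ?_
    rintro ⟨⟨B, hB⟩, ⟨D, hD⟩, M⟩
    refine Filter.principal_neBot_iff.2 ?_
    obtain ⟨x, y, h1, h2⟩ := hcon B D hB hD M
    exact ⟨(x, y), fun h => h1 h.1 h.2, h2⟩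
  let 𝓤 : Ultrafilter (X × Y) := Ultrafilter.of (⨅ i : ι, Filter.principal (S i))
  have hS : ∀ i, S i ∈ 𝓤 := fun i =>
    Ultrafilter.of_le _ (Filter.mem_iInf_of_mem i (Filter.mem_principal_self _))
  have hbig : ∀ (B : Set X) (D : Set Y) (M : ℝ), 𝒳.IsBdd B → 𝒴.IsBdd D →
      {z : X × Y | ¬ (z.1 ∈ B ∧ z.2 ∈ D) ∧ M < |f z.1 z.2|} ∈ 𝓤 := fun B D M hB hD =>
    hS (⟨B, hB⟩, ⟨D, hD⟩, M)
  have hbig' : ∀ M : ℝ, {z : X × Y | M < |f z.1 z.2|} ∈ 𝓤 := fun M =>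
    Filter.mem_of_superset (hbig ∅ ∅ M hBdd0 hBdd0') fun z hz => hz.2
  -- one-sided facts
  let f' : Y → X → ℝ := fun y x => f x y
  have H' : Osc2 𝒴 𝒳 f' C := H.swap
  have HX : Osc 𝒳 f C := H.left y₀
  have HY : Osc 𝒴 f' C := H'.left x₀
  obtain ⟨c₁, hc₁⟩ := bounded_over_bounded h𝒴 H x₀ y₀
  obtain ⟨c₂, hc₂⟩ := bounded_over_bounded h𝒳 H' y₀ x₀
  have hp : ∀ B, 𝒳.IsBdd B → (Prod.fst : X × Y → X) ⁻¹' B ∉ 𝓤 :=
    fun B hB => unb_aux hc₁ 𝓤 Prod.fst Prod.snd hbig B hB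
  have hq : ∀ D, 𝒴.IsBdd D → (Prod.snd : X × Y → Y) ⁻¹' D ∉ 𝓤 := by
    refine fun D hD => unb_aux hc₂ 𝓤 Prod.snd Prod.fst (fun D B M hD hB => ?_) D hD
    exact Filter.mem_of_superset (hbig B D M hB hD) fun z hz => ⟨fun h => hz.1 ⟨h.2, h.1⟩, hz.2⟩
  obtain ⟨B₀, hB₀, N₀, hN₀, hBN⟩ := uniform_dist h𝒳 HX
  obtain ⟨D₀, hD₀, N₁, hN₁, hDN⟩ := uniform_dist h𝒴 HY
  obtain ⟨s, hs1, hs2⟩ := exists_selector f B₀
  obtain ⟨t, ht1, ht2⟩ := exists_selector f' D₀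
  have hsU : {z : X × Y | ∀ y, |f z.1 y - f (s (Quotient.mk _ z.1)) y| ≤ N₀} ∈ 𝓤 := by
    refine Filter.mem_of_superset (Ultrafilter.compl_mem_iff_notMem.2 (hp B₀ hB₀)) ?_
    intro z hz
    exact hBN z.1 _ hz (hs2 _ hz) (Quotient.exact (hs1 _).symm)
  have htU : {z : X × Y | ∀ x, |f' z.2 x - f' (t (Quotient.mk _ z.2)) x| ≤ N₁} ∈ 𝓤 := by
    refine Filter.mem_of_superset (Ultrafilter.compl_mem_iff_notMem.2 (hq D₀ hD₀)) ?_
    intro z hz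
    exact hDN z.2 _ hz (ht2 _ hz) (Quotient.exact (ht1 _).symm)
  let U := (𝓤.map Prod.fst).map (Quotient.mk (distSetoid f))
  let W := (𝓤.map Prod.snd).map (Quotient.mk (distSetoid f'))
  have hsB : ∀ B, 𝒳.IsBdd B → {i | s i ∈ B} ∉ U :=
    fun B hB => sel_aux hc₁ 𝓤 Prod.fst Prod.snd hbig' hq s hsU B hB
  have htD : ∀ D, 𝒴.IsBdd D → {j | t j ∈ D} ∉ W :=
    fun D hD => sel_aux hc₂ 𝓤 Prod.snd Prod.fst hbig' hp t htU D hD
  have hUσ : ∀ S : ℕ → Set (Quotient (distSetoid f)), (∀ n, S n ∈ U) → (⋂ n, S n) ∈ U :=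
    sigma_complete h𝒳 HX (𝓤.map Prod.fst) hp
  have hWσ : ∀ S : ℕ → Set (Quotient (distSetoid f')), (∀ n, S n ∈ W) → (⋂ n, S n) ∈ W :=
    sigma_complete h𝒴 HY (𝓤.map Prod.snd) hq
  obtain ⟨P₁, hP₁, hP₁'⟩ := exists_atom h𝒳 HX U
  obtain ⟨P₂, hP₂, hP₂'⟩ := exists_atom h𝒴 HY W
  refine comb U W hUσ hWσ P₁ P₂ hP₁ (fun i j => |f (s i) (t j)|) (max c₁ c₂) ?_ ?_ ?_
  · intro A hA hAU h
    obtain ⟨D, hD, hBD⟩ := hc₁ _ (hP₁' A hA hAU)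
    refine htD D hD (Filter.mem_of_superset h ?_)
    rintro j ⟨-, i, hi, hij⟩
    by_contra hj
    have h1 := hBD (s i) (by change Quotient.mk _ (s i) ∈ A; rw [hs1]; exact hi) (t j) hj
    have h2 := le_max_left c₁ c₂
    linarith
  · intro A hA hAW h
    obtain ⟨B, hB, hBD⟩ := hc₂ _ (hP₂' A hA hAW)
    refine hsB B hB (Filter.mem_of_superset h ?_)
    rintro i ⟨-, j, hj, hij⟩
    by_contra hi
    have h1 : |f (s i) (t j)| ≤ c₂ :=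
      hBD (t j) (by change Quotient.mk _ (t j) ∈ A; rw [ht1]; exact hj) (s i) hi
    have h2 := le_max_right c₁ c₂
    linarith
  · have h1 : {i | ∀ n : ℕ, ∃ j ∈ P₂, (n : ℝ) < |f (s i) (t j)|} =
        ⋂ n : ℕ, {i | ∃ j ∈ P₂, (n : ℝ) < |f (s i) (t j)|} := by
      ext i; simp
    rw [h1]
    refine hUσ _ fun n => ?_
    change {z : X × Y | ∃ j ∈ P₂, (n : ℝ) < |f (s (Quotient.mk _ z.1)) (t j)|} ∈ 𝓤
    have hP₂'' : {z : X × Y | Quotient.mk _ z.2 ∈ P₂} ∈ 𝓤 := hP₂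
    refine Filter.mem_of_superset (Filter.inter_mem (Filter.inter_mem hsU htU)
      (Filter.inter_mem hP₂'' (hbig' (n + N₀ + N₁)))) ?_
    rintro z ⟨⟨hz1, hz2⟩, hz3, hz4⟩
    refine ⟨_, hz3, ?_⟩
    have h2 := hz1 z.2
    have h3 : |f (s (Quotient.mk _ z.1)) z.2 -
      f (s (Quotient.mk _ z.1)) (t (Quotient.mk _ z.2))| ≤ N₁ := hz2 (s (Quotient.mk _ z.1))
    have h4 : (n : ℝ) + N₀ + N₁ < |f z.1 z.2| := hz4
    have h5 := abs_sub_abs_le_abs_sub (f z.1 z.2) (f (s (Quotient.mk _ z.1)) z.2)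
    have h6 := abs_sub_abs_le_abs_sub (f (s (Quotient.mk _ z.1)) z.2)
      (f (s (Quotient.mk _ z.1)) (t (Quotient.mk _ z.2)))
    linarith

lemma isBdd_prod_iff_aux {𝒳 : Ballean X} {𝒴 : Ballean Y} {B : Set X} {D : Set Y}
    (hB : 𝒳.IsBdd B) (hD : 𝒴.IsBdd D) : (𝒳.prod 𝒴).IsBdd (B ×ˢ D) := by
  obtain ⟨E, hE, x, hx⟩ := hB
  obtain ⟨F, hF, y, hy⟩ := hD
  exact ⟨prodEnt E F, ⟨E, hE, F, hF, rfl⟩, (x, y), fun z hz => ⟨hx hz.1, hy hz.2⟩⟩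

end product

open Ballean in
/-- **Full answer to Q1.** The product of any two bo-bounded balleans is bo-bounded. -/
theorem result : ∀ (X : Type u) (Y : Type v) (𝒳 : Ballean X) (𝒴 : Ballean Y),
    𝒳.BoBounded → 𝒴.BoBounded → (𝒳.prod 𝒴).BoBounded := by
  intro X Y 𝒳 𝒴 h𝒳 h𝒴 F hF
  -- the two families of entourages are non-empty
  have hEX : ∃ E, E ∈ 𝒳.entourages := by
    by_contra hcon
    push Not at hcon
    obtain ⟨B, ⟨E, hE, -⟩, -⟩ := h𝒳 (fun _ => 0) ⟨1, one_pos, fun E hE => (hcon E hE).elim⟩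
    exact hcon E hE
  have hEY : ∃ E, E ∈ 𝒴.entourages := by
    by_contra hcon
    push Not at hcon
    obtain ⟨B, ⟨E, hE, -⟩, -⟩ := h𝒴 (fun _ => 0) ⟨1, one_pos, fun E hE => (hcon E hE).elim⟩
    exact hcon E hE
  obtain ⟨C, hC, hFC⟩ := hF
  obtain ⟨E₀, hE₀⟩ := hEX
  obtain ⟨F₀, hF₀⟩ := hEY
  obtain ⟨_, ⟨_, _, z₀, _⟩, _⟩ := hFC _ ⟨E₀, hE₀, F₀, hF₀, rfl⟩
  have H : Osc2 𝒳 𝒴 (fun x y => F (x, y)) C := by
    intro E hE G hG
    obtain ⟨B, ⟨_, ⟨E', hE', G', hG', rfl⟩, z, hz⟩, hB⟩ := hFC _ ⟨E, hE, G, hG, rfl⟩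
    refine ⟨ball E' z.1, ball G' z.2, ⟨E', hE', z.1, subset_rfl⟩, ⟨G', hG', z.2, subset_rfl⟩, ?_⟩
    intro x y hxy x' y' hx' hy'
    have h1 : (x, y) ∉ B := fun h => hxy (hz h)
    exact osc_pair F C hC (hB (x, y) h1) (a := (x, y)) (b := (x', y'))
      ⟨𝒳.diag_subset E hE x, 𝒴.diag_subset G hG y⟩ ⟨hx', hy'⟩
  obtain ⟨B, D, hB, hD, M, hM⟩ := main_aux h𝒳 h𝒴 H z₀.1 z₀.2
  exact ⟨B ×ˢ D, isBdd_prod_iff_aux hB hD, M, fun z hz => hM z.1 z.2 hz⟩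

end Pool.Agent.Results.MP_34945e_gt.ProductBoBounded
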